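import Pool.Agent.Helper87.CV.Main

/-!
# A smaller upper bound for the linear covering density of radius two

`f r` is the function of the frozen statement (`Pool.Prelude.Def_F_7905cbea`): the liminf over `n` of
the least value of `|V| |H(r)| / 2^n` over the linear subspaces `V` of `F_2^n` with
`V + H(r) = F_2^n`.

Proof.  A binary code of length `50`, codimension `10` and covering radius `2` (found by a search);
its `50` columns and the zero column fall into `33` classes such that every nonzero syndrome is the
sum of two columns of different classes.  Assign to the classes the `33` slopes of the plane over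
`F_32`.  The columns `(a_i, x, β_i x)` (`x ∈ F_32`) and one more zero column are `1633` columns in a
space with `2^20` elements, and every element is the sum of two columns with different indices.  The
lifting of the library (`SingleCodes` of MP_f8d60a_co) gives codes of density
`1633^2 / 2^21 + o(1)`.
-/

set_option autoImplicit false

namespace Pool.Agent.Results.MP_7fa5ba_co.UpperBound

/-- `f(2) ≤ 1633² / 2²¹ = 1.27157... < 1.2716`. -/
theorem result : N8b55e67f.f 2 ≤ ENNReal.ofReal (2666689 / 2097152) ∧
    N8b55e67f.f 2 < ENNReal.ofReal 1.2716 := by
  refine ⟨Pool.Agent.Helper87.CV.f2_le, lt_of_le_of_lt Pool.Agent.Helper87.CV.f2_le ?_⟩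
  exact (ENNReal.ofReal_lt_ofReal_iff (by norm_num)).2 (by norm_num)

end Pool.Agent.Results.MP_7fa5ba_co.UpperBound
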